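import Mathlib.Algebra.Group.WithOne.Basic
import Mathlib.SetTheory.Cardinal.Free
import Mathlib.Tactic

/-!
# o-conjugacy is partition covering
-/

namespace Pool.Agent.Results.MP_45ad35_al.PartitionCovering

/-- `S^1`, realised inside `WithOne S`: all of `WithOne S` if `S` has no identity element, and
the copy of `S` if `S` has an identity element. -/
def S1 (S : Type*) [Semigroup S] : Set (WithOne S) :=
  {x | x ≠ 1 ∨ ¬ ∃ e : S, ∀ s : S, e * s = s ∧ s * e = s}

/-- o-conjugacy: `ag = gb` and `bh = ha` for some `g, h ∈ S^1`. -/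
def OConj {S : Type*} [Semigroup S] (a b : S) : Prop :=
  ∃ g ∈ S1 S, ∃ h ∈ S1 S, (a : WithOne S) * g = g * b ∧ (b : WithOne S) * h = h * a

/-- o-conjugacy is partition covering: for every nonempty `X` and every partition of `X` (given
by its equivalence relation `τ`) there is a semigroup on `X` whose o-conjugacy classes are the
blocks of `τ`. -/
theorem result (X : Type*) [Nonempty X] (τ : Setoid X) :
    ∃ _ : Semigroup X, ∀ a b : X, OConj a b ↔ τ a b := by
  haveI : Nonempty (Quotient τ) := ⟨Quotient.mk τ (Classical.arbitrary X)⟩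
  obtain ⟨R⟩ := nonempty_commRing (Quotient τ)
  let mk : X → Quotient τ := Quotient.mk τ
  have hout : ∀ q : Quotient τ, mk q.out = q := fun q => Quotient.out_eq q
  let inst : Semigroup X :=
    { mul := fun x y => (mk x + mk y).out
      mul_assoc := by
        intro x y z
        change (mk (mk x + mk y).out + mk z).out = (mk x + mk (mk y + mk z).out).out
        rw [hout, hout, add_assoc] }
  have hmul : ∀ x y : X, x * y = (mk x + mk y).out := fun x y => rfl
  refine ⟨inst, fun a b => ?_⟩
  constructor
  · rintro ⟨g, -, h, -, h1, -⟩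
    by_cases hg : g = 1
    · rw [hg, mul_one, one_mul] at h1
      rw [WithOne.coe_inj.mp h1]
    · obtain ⟨g, rfl⟩ := WithOne.ne_one_iff_exists.mp hg
      rw [← WithOne.coe_mul, ← WithOne.coe_mul, WithOne.coe_inj, hmul, hmul] at h1
      have h2 : mk a + mk g = mk g + mk b := by rw [← hout (mk a + mk g), h1, hout]
      have h3 : mk a = mk b := by
        rw [add_comm (mk g) (mk b)] at h2
        exact add_right_cancel h2
      exact Quotient.exact h3
  · intro hab
    have h3 : mk a = mk b := Quotient.sound hab
    have key : (a : WithOne X) * (a : WithOne X) = a * b := by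
      rw [← WithOne.coe_mul, ← WithOne.coe_mul, WithOne.coe_inj, hmul, hmul, h3]
    have key2 : (b : WithOne X) * (a : WithOne X) = a * a := by
      rw [← WithOne.coe_mul, ← WithOne.coe_mul, WithOne.coe_inj, hmul, hmul, h3]
    exact ⟨a, Or.inl WithOne.coe_ne_one, a, Or.inl WithOne.coe_ne_one, key, key2⟩

end Pool.Agent.Results.MP_45ad35_al.PartitionCovering
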